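import Pool.Agent.H3.Al.Quad
import Pool.Agent.H3.Al.Spec

set_option autoImplicit false

/-!
# The level Schreier graphs of the Aleshin automaton are not Ramanujan

The group of the Aleshin automaton `a = (c, b)σ`, `b = (b, c)σ`, `c = (a, a)` is transitive on the
words of each length `n`, so the level `n` Schreier graph (for the generating set of the three
states, `k = 6`) has `2 ^ n` vertices, for every ray.  For every `n ≥ 10` its Markov operator has an
eigenvalue `lam < 1`, the same for all these `n`, with a nonconstant eigenfunction and above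
`2 √5 / 6`, so that none of these graphs is Ramanujan.
-/

namespace Pool.Agent.Results.MP_25cfe7_al.AleshinNotRamanujan

open Pool.Agent.H3.Al

/-- the value at `u` of the Markov operator of the level graph containing the word `u` -/
noncomputable def markov (f : List Bool → ℝ) (u : List Bool) : ℝ :=
  (f (act St.a u) + f (actInv St.a u) + f (act St.b u) + f (actInv St.b u) +
    f (act St.c u) + f (actInv St.c u)) / 6

/-- `f` satisfies the equation of the eigenfunctions with eigenvalue `lam` on words of length `n` -/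
def IsEigen (n : ℕ) (lam : ℝ) (f : List Bool → ℝ) : Prop :=
  ∀ u : List Bool, u.length = n → markov f u = lam * f u

/-- `f` is not constant on words of length `n` -/
def Nonconstant (n : ℕ) (f : List Bool → ℝ) : Prop :=
  ∃ u v : List Bool, u.length = n ∧ v.length = n ∧ f u ≠ f v

theorem take_act (s : St) (k : ℕ) (u : List Bool) : (act s u).take k = act s (u.take k) := by
  induction u generalizing s k with
  | nil => simp [act]
  | cons i u ih =>
    cases k with
    | zero => rfl
    | succ k =>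
      show out s i :: (act (next s i) u).take k = out s i :: act (next s i) (u.take k)
      rw [ih]

theorem take_actInv (s : St) (k : ℕ) (u : List Bool) :
    (actInv s u).take k = actInv s (u.take k) := by
  have h : act s ((actInv s u).take k) = u.take k := by
    rw [← take_act, act_actInv]
  rw [← h, actInv_act]

/-- the permutation of the words of length `m` -/
def sg (m : ℕ) (s : St) : Equiv.Perm {u : List Bool // u ∈ words m} where
  toFun x := ⟨act s x.1, by
    have := mem_words.1 x.2
    rw [mem_words, length_act, this]⟩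
  invFun x := ⟨actInv s x.1, by
    have := mem_words.1 x.2
    rw [mem_words, length_actInv, this]⟩
  left_inv x := Subtype.ext (actInv_act s x.1)
  right_inv x := Subtype.ext (act_actInv s x.1)

/-- a function on words of length `m` as a function of all words -/
noncomputable def ext (m : ℕ) (g : {u : List Bool // u ∈ words m} → ℝ) (u : List Bool) : ℝ :=
  if h : u.take m ∈ words m then g ⟨u.take m, h⟩ else 0

theorem ext_eq {m : ℕ} (g : {u : List Bool // u ∈ words m} → ℝ) {u : List Bool}
    (x : {u : List Bool // u ∈ words m}) (h : u.take m = x.1) : ext m g u = g x := by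
  unfold ext
  rw [dif_pos (by rw [h]; exact x.2)]
  congr 1
  exact Subtype.ext h

theorem ext_spec (m : ℕ) (t : ℝ) (g : {u : List Bool // u ∈ words m} → ℝ)
    (hg : ∀ x, ∑ s, (g (sg m s x) + g ((sg m s)⁻¹ x)) = t * g x) (hne : ∃ x y, g x ≠ g y)
    (n : ℕ) (hn : m ≤ n) : IsEigen n (t / 6) (ext m g) ∧ Nonconstant n (ext m g) := by
  constructor
  · intro u hu
    have hu10 : u.take m ∈ words m := by
      rw [mem_words, List.length_take, hu]
      omega
    have e0 : ext m g u = g ⟨u.take m, hu10⟩ := ext_eq g _ rfl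
    have e1 : ∀ s, ext m g (act s u) = g (sg m s ⟨u.take m, hu10⟩) :=
      fun s => ext_eq g _ (take_act s m u)
    have e2 : ∀ s, ext m g (actInv s u) = g ((sg m s)⁻¹ ⟨u.take m, hu10⟩) :=
      fun s => ext_eq g _ (take_actInv s m u)
    have h2 := hg ⟨u.take m, hu10⟩
    rw [sum_St] at h2
    unfold markov
    rw [e0, e1, e1, e1, e2, e2, e2]
    linarith
  · obtain ⟨x0, y0, hne⟩ := hne
    have hx0 := mem_words.1 x0.2
    have hy0 := mem_words.1 y0.2
    refine ⟨x0.1 ++ List.replicate (n - m) false, y0.1 ++ List.replicate (n - m) false,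
      ?_, ?_, ?_⟩
    · rw [List.length_append, List.length_replicate, hx0]
      omega
    · rw [List.length_append, List.length_replicate, hy0]
      omega
    · rw [ext_eq g x0 (List.take_left' hx0), ext_eq g y0 (List.take_left' hy0)]
      exact hne

/-- the words of length 10 -/
abbrev X : Type := {u : List Bool // u ∈ words 10}

theorem exists_g : ∃ (t : ℝ) (g : X → ℝ), 4491 / 1000 < t ∧
    (∀ x, ∑ s, (g (sg 10 s x) + g ((sg 10 s)⁻¹ x)) = t * g x) ∧ ∃ x y, g x ≠ g y := by
  refine exists_eigen (sg 10) (4491 / 1000) (fun x => (ev tt x.1 : ℝ)) ?_ ?_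
  · have h1 : ∑ x : X, ((ev tt x.1 : ℤ) : ℝ) = ∑ u ∈ words 10, ((ev tt u : ℤ) : ℝ) :=
      Finset.sum_coe_sort (words 10) (fun u => ((ev tt u : ℤ) : ℝ))
    rw [h1]
    have h2 := sm_eq tt_perf
    rw [tt_sm] at h2
    exact_mod_cast h2
  · have h1 : ∑ x : X, ((ev tt x.1 : ℤ) : ℝ) ^ 2 = 657392 := by
      have h1 : ∑ x : X, ((ev tt x.1 : ℤ) : ℝ) ^ 2 = ∑ u ∈ words 10, ((ev tt u : ℤ) : ℝ) ^ 2 :=
        Finset.sum_coe_sort (words 10) (fun u => ((ev tt u : ℤ) : ℝ) ^ 2)
      rw [h1]
      have h2 := sq_eq tt_perf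
      rw [tt_sq] at h2
      have h3 : ((∑ u ∈ words 10, ev tt u * ev tt u : ℤ) : ℝ) = ((657392 : ℤ) : ℝ) := by
        rw [h2]
      push_cast at h3
      rw [← h3]
      exact Finset.sum_congr rfl fun u _ => pow_two _
    have hQ : ∀ s : St, ∑ x : X, ((ev tt (sg 10 s x).1 : ℤ) : ℝ) * ((ev tt x.1 : ℤ) : ℝ) =
        ((Q 10 s tt tt : ℤ) : ℝ) := by
      intro s
      rw [← Q_eq s tt_perf tt_perf]
      push_cast
      rw [← Finset.sum_coe_sort (words 10)
        (fun u => ((ev tt u : ℤ) : ℝ) * ((ev tt (act s u) : ℤ) : ℝ))]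
      exact Finset.sum_congr rfl fun x _ => mul_comm _ _
    have hQ' : ∀ s : St,
        ∑ x : X, ((ev tt ((sg 10 s)⁻¹ x).1 : ℤ) : ℝ) * ((ev tt x.1 : ℤ) : ℝ) =
        ((Q 10 s tt tt : ℤ) : ℝ) := by
      intro s
      rw [← hQ s, ← Equiv.sum_comp (sg 10 s)
        (fun x : X => ((ev tt ((sg 10 s)⁻¹ x).1 : ℤ) : ℝ) * ((ev tt x.1 : ℤ) : ℝ))]
      refine Finset.sum_congr rfl fun x _ => ?_
      rw [show (sg 10 s)⁻¹ (sg 10 s x) = x from (sg 10 s).symm_apply_apply x, mul_comm]
    have h2 : ∑ x : X,
        (∑ s, (((ev tt (sg 10 s x).1 : ℤ) : ℝ) + ((ev tt ((sg 10 s)⁻¹ x).1 : ℤ) : ℝ))) *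
        ((ev tt x.1 : ℤ) : ℝ) = 2952576 := by
      simp only [Finset.sum_mul, add_mul]
      rw [Finset.sum_comm]
      simp only [Finset.sum_add_distrib, hQ, hQ']
      simp only [sum_St]
      have h3 : ((Q 10 St.a tt tt + Q 10 St.b tt tt + Q 10 St.c tt tt : ℤ) : ℝ) =
          ((1476288 : ℤ) : ℝ) := by rw [tt_Q]
      push_cast at h3
      linarith
    rw [h1, h2]
    norm_num

theorem result :
    (∀ (n : ℕ) (u v : List Bool), u.length = n → v.length = n → ∃ g ∈ G, g u = v) ∧
    ∃ (lam : ℝ) (f : List Bool → ℝ), 2 * Real.sqrt 5 / 6 + 3 / 1000 < lam ∧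
      ∀ n : ℕ, 10 ≤ n → IsEigen n lam f ∧ Nonconstant n f := by
  refine ⟨fun n u v hu hv => transitive n u v hu hv, ?_⟩
  obtain ⟨t, g, ht, hg, hne⟩ := exists_g
  refine ⟨t / 6, ext 10 g, ?_, fun n hn => ext_spec 10 t g hg hne n hn⟩
  have h5 : Real.sqrt 5 < 22361 / 10000 := by
    rw [Real.sqrt_lt' (by norm_num)]
    norm_num
  linarith

end Pool.Agent.Results.MP_25cfe7_al.AleshinNotRamanujan
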