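import Pool.Agent.H3.Bell.Statement

set_option autoImplicit false

/-!
# The Bellaterra automaton is arithmetic over `ℚ(√17)`

The group `G` of the Bellaterra automaton `a = (c, b)`, `b = (b, c)`, `c = (a, a)σ` is the principal
congruence subgroup of level `π` of the `π'`-unit group (modulo scalars) of a maximal order `O` in the
quaternion algebra over `K = ℚ(√17)` ramified exactly at the two real places, where `π π' = 2`; the
stabilizers of words of length `n` are the subgroups given by the orders `O ∩ Y_u O Y_u⁻¹`, where `Y_u`
has reduced norm `π ^ (n+1)`.  The states are the elements of reduced norm `π'`, and word length is the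
exponent of `π'` in the reduced norm, so that the level graph `Γ_n` is the quotient of the 3-regular
tree of the order at `π'` by a congruence subgroup of level `π ^ (n+1)`.
-/

namespace Pool.Agent.Results.MP_25cfe7_al.BellaterraArithmetic

open Pool.Agent.H3.Bell Pool.Agent.H3.Bell.Om

theorem pprod_eq (l : List St) : pprod l = (l.map perm).prod := by
  induction l with
  | nil => rfl
  | cons s l ih => rw [List.map_cons, List.prod_cons, ← ih]; rfl

theorem result :
    TotallyDefinite ∧ DiscriminantOne ∧ NormY ∧ LevelTransitive ∧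
    ∃ θ : Hom, Onto θ ∧ KernelScalars θ ∧ StatesFromNorm θ ∧ LengthIsExponent θ ∧
      ActionOnIdeals θ := by
  refine ⟨fun x hx => ⟨fp_nrd_pos hx, fm_nrd_pos hx⟩, disc, nrd_Y, ?_, theta, ?_, ?_, ?_, ?_, ?_⟩
  · intro u v h
    exact transitive u.length u v rfl h.symm
  · intro g hg
    obtain ⟨x, hx⟩ := theta_surjective ⟨g, hg⟩
    exact ⟨x, congrArg Subtype.val hx⟩
  · intro x y
    rw [Proportional, ← theta_eq_iff]
    exact Subtype.ext_iff.symm
  · intro s
    exact ⟨⟨gen s, gen_mem s⟩, nrd_gen s, theta_gen s⟩
  · rintro x r hprim ⟨w, hn⟩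
    refine ⟨?_, ?_⟩
    · obtain ⟨l, hl, h⟩ := length_eq x r hprim w hn
      exact ⟨l, hl, by rw [← pprod_eq]; exact h⟩
    · intro l hl
      exact length_ge x r hprim w hn l (by rw [pprod_eq]; exact hl)
  · intro x u v h
    have h1 := th_iff x u v
    constructor
    · intro h2
      exact (h1.1 h2).2
    · rintro ⟨t, ht⟩
      exact h1.2 ⟨h.symm, t, ht⟩

end Pool.Agent.Results.MP_25cfe7_al.BellaterraArithmetic
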