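import Pool.Agent.H3.Bell2.Fin

set_option autoImplicit false

/-!
# The level Schreier graphs of the Bellaterra automaton are expanders

The group of the Bellaterra automaton `a = (c, b)`, `b = (b, c)`, `c = (a, a)σ` is transitive on the
words of each length `n`, so the level `n` Schreier graph has `2 ^ n` vertices, for every ray.  Each
state is an involution, so the Markov operator is the mean over `a`, `b`, `c`.  All its eigenvalues
except those of the constants are at most `99 / 100` in absolute value, with finitely many
exceptions (the same finite set for all levels), and the exceptions are less than `1` in absolute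
value.
-/

namespace Pool.Agent.Results.MP_25cfe7_al.BellaterraExpanders

open Pool.Agent.H3.Bell Pool.Agent.H3.Bell2

/-- the value at `u` of the Markov operator of the level graph containing the word `u` -/
noncomputable def markov (f : List Bool → ℝ) (u : List Bool) : ℝ :=
  (f (act St.a u) + f (act St.b u) + f (act St.c u)) / 3

/-- `f` satisfies the equation of the eigenfunctions with eigenvalue `lam` on words of length `n` -/
def IsEigen (n : ℕ) (lam : ℝ) (f : List Bool → ℝ) : Prop :=
  ∀ u : List Bool, u.length = n → markov f u = lam * f u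

/-- `f` is not constant on words of length `n` -/
def Nonconstant (n : ℕ) (f : List Bool → ℝ) : Prop :=
  ∃ u v : List Bool, u.length = n ∧ v.length = n ∧ f u ≠ f v

theorem eg_of_isEigen {n : ℕ} {lam : ℝ} {f : List Bool → ℝ} (h : IsEigen n lam f) :
    Eg n (3 * lam) f := by
  intro v hv
  have h1 := h v hv
  unfold markov at h1
  rw [sum_St]
  show f (act St.a v) + f (act St.b v) + f (act St.c v) = 3 * lam * f v
  linarith

theorem result : ∃ F : Finset ℝ, (∀ lam ∈ F, |lam| < 1) ∧
    ∀ (n : ℕ) (lam : ℝ) (f : List Bool → ℝ), IsEigen n lam f → Nonconstant n f →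
      |lam| ≤ 99 / 100 ∨ lam ∈ F := by
  have hfin : {t : ℝ | |t| < 3 ∧ 297 / 100 ≤ |t| ∧ ∃ n, Occ n t}.Finite :=
    finite_big.subset fun t ht => ht.2
  classical
  refine ⟨hfin.toFinset.image (fun t => t / 3), ?_, ?_⟩
  · intro lam hlam
    obtain ⟨t, ht, rfl⟩ := Finset.mem_image.1 hlam
    rw [Set.Finite.mem_toFinset] at ht
    rw [abs_div, abs_of_pos (by norm_num : (0 : ℝ) < 3), div_lt_one (by norm_num)]
    exact ht.1
  · intro n lam f hf hne
    have h1 := eg_of_isEigen hf
    have h2 := abs_lt_three h1 hne
    rcases le_or_gt |lam| (99 / 100) with h | h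
    · exact Or.inl h
    · right
      refine Finset.mem_image.2 ⟨3 * lam, ?_, by ring⟩
      rw [Set.Finite.mem_toFinset]
      refine ⟨h2, ?_, n, f, h1, ?_⟩
      · rw [abs_mul, abs_of_pos (by norm_num : (0 : ℝ) < 3)]
        linarith
      · obtain ⟨u, v, hu, hv, huv⟩ := hne
        by_contra hcon
        push Not at hcon
        exact huv ((hcon u hu).trans (hcon v hv).symm)

end Pool.Agent.Results.MP_25cfe7_al.BellaterraExpanders
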