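import Pool.Agent.H9.Ram.X3

/-!
# Finite automata whose level Schreier graphs are Ramanujan graphs

For every finite field `F` with `q ≥ 3` elements (every prime power `q ≥ 3`) we give explicit finite invertible automata with
`q + 1` states and `q` letters; the set of states is closed under inverses, the group acts transitively on the words of each
length, and every level graph `Γ_n` (with `q ^ n` vertices, `(q + 1)`-regular) is Ramanujan.
-/

noncomputable section

namespace Pool.Agent.Results.MP_25cfe7_al.RamanujanAutomata

/-- An invertible automaton with states `Q` and alphabet `X`: the permutation `out s` of `X` for every state `s` and the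
transition map `nxt`. -/
structure Automaton (Q X : Type*) where
  /-- the permutation of the alphabet given by a state -/
  out : Q → Equiv.Perm X
  /-- the transition map -/
  nxt : Q → X → Q

namespace Automaton

variable {Q X : Type*} (A : Automaton Q X)

/-- The action of a state on words: `s (x w) = (out s x) ((nxt s x) w)`. -/
def act (A : Automaton Q X) : Q → List X → List X
  | _, [] => []
  | s, x :: w => A.out s x :: A.act (A.nxt s x) w

/-- The inverse of the action of a state. -/
def actInv (A : Automaton Q X) : Q → List X → List X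
  | _, [] => []
  | s, x :: w => (A.out s).symm x :: A.actInv (A.nxt s ((A.out s).symm x)) w

theorem actInv_act (s : Q) (w : List X) : A.actInv s (A.act s w) = w := by
  induction w generalizing s with
  | nil => rfl
  | cons x w ih =>
    simp only [act, actInv, Equiv.symm_apply_apply, ih]

theorem act_actInv (s : Q) (w : List X) : A.act s (A.actInv s w) = w := by
  induction w generalizing s with
  | nil => rfl
  | cons x w ih =>
    simp only [act, actInv, Equiv.apply_symm_apply, ih]

/-- The automorphism of the tree of words given by a state. -/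
def perm (s : Q) : Equiv.Perm (List X) where
  toFun := A.act s
  invFun := A.actInv s
  left_inv := A.actInv_act s
  right_inv := A.act_actInv s

/-- The group `G(A)` generated by the states. -/
def group : Subgroup (Equiv.Perm (List X)) := Subgroup.closure (Set.range A.perm)

/-- The set `S ∪ S⁻¹` of generators and their inverses. -/
def gens : Set (Equiv.Perm (List X)) := {g | ∃ s, g = A.perm s ∨ g = (A.perm s)⁻¹}

/-- The valency `k = |S ∪ S⁻¹|` of the level graphs. -/
def valency : ℕ := A.gens.ncard

/-- The vertices of the level graph `Γ_n` of a ray with prefix `u` of length `n`: the orbit of `u`. -/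
def vertices (u : List X) : Set (List X) := {v | ∃ g ∈ A.group, g u = v}

/-- The Markov operator `(1/k) ∑_{g ∈ S ∪ S⁻¹} f (g v)`. -/
def markov (f : List X → ℝ) (v : List X) : ℝ := (1 / (A.valency : ℝ)) * ∑ᶠ g ∈ A.gens, f (g v)

/-- The level graph with vertex set `vertices u` is Ramanujan: all eigenvalues of the Markov operator on the functions with
sum zero (i.e. all eigenvalues except the simple eigenvalue `1` of the constants) have absolute value at most
`2 √(k - 1) / k`. -/
def IsRamanujan (u : List X) : Prop :=
  ∀ (f : List X → ℝ) (lam : ℝ), (∃ v ∈ A.vertices u, f v ≠ 0) → ∑ᶠ v ∈ A.vertices u, f v = 0 →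
    (∀ v ∈ A.vertices u, A.markov f v = lam * f v) →
      |lam| ≤ 2 * √((A.valency : ℝ) - 1) / A.valency

end Automaton

open Pool.Agent.H9.Ram

section ram

variable {F K : Type*} [Field F] [Fintype F] [Field K] [Algebra F K] [IsAlgClosed K]

theorem out_inv_out (p : Par F K) (u : p.St) (b : p.Lt) : p.out (p.inv u) (p.out u b) = b := by
  have h := p.act_inv_act u [b]
  simp only [Par.act] at h
  exact (List.cons.inj h).1

/-- The automaton: the state `u` (`u ^ (q+1) = c`) sends the letter `b` (`b ^ (q+1) = d`, `b ≠ - a ^ q`) to
`b w (u w + b) ^ (q-1)`, `w = (u + a) ^ (q-1)`, and its next state is `u w a / b`. -/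
def ramAut (p : Par F K) : Automaton p.St p.Lt where
  out u :=
    { toFun := p.out u
      invFun := p.out (p.inv u)
      left_inv := fun b => out_inv_out p u b
      right_inv := fun b => by
        have h := out_inv_out p (p.inv u) b
        rwa [p.inv_inv] at h }
  nxt := p.nxt

theorem act_eq (p : Par F K) (u : p.St) (w : List p.Lt) : (ramAut p).act u w = p.act u w := by
  induction w generalizing u with
  | nil => rfl
  | cons b w ih =>
    show p.out u b :: (ramAut p).act (p.nxt u b) w = p.out u b :: p.act (p.nxt u b) w
    rw [ih]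

theorem perm_apply (p : Par F K) (u : p.St) (w : List p.Lt) : (ramAut p).perm u w = p.act u w :=
  act_eq p u w

theorem perm_inv (p : Par F K) (u : p.St) : ((ramAut p).perm u)⁻¹ = (ramAut p).perm (p.inv u) := by
  rw [inv_eq_iff_mul_eq_one]
  ext1 w
  show (ramAut p).perm u ((ramAut p).perm (p.inv u) w) = w
  rw [perm_apply, perm_apply]
  have h := p.act_inv_act (p.inv u) w
  rwa [p.inv_inv] at h

theorem gens_eq (p : Par F K) : (ramAut p).gens = Set.range (ramAut p).perm := by
  ext g
  constructor
  · rintro ⟨s, rfl | rfl⟩
    · exact ⟨s, rfl⟩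
    · exact ⟨p.inv s, (perm_inv p s).symm⟩
  · rintro ⟨s, rfl⟩
    exact ⟨s, Or.inl rfl⟩

theorem perm_injective (p : Par F K) : Function.Injective (ramAut p).perm := by
  intro u v h
  apply p.out_injective_state
  intro b
  have h1 : (ramAut p).perm u [b] = (ramAut p).perm v [b] := by rw [h]
  rw [perm_apply, perm_apply] at h1
  simp only [Par.act] at h1
  exact (List.cons.inj h1).1

theorem valency_eq (p : Par F K) : (ramAut p).valency = Fintype.card F + 1 := by
  unfold Automaton.valency
  rw [gens_eq, ← Set.image_univ, Set.ncard_image_of_injective _ (perm_injective p),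
    Set.ncard_univ, p.card_St]

theorem group_length (p : Par F K) (g : Equiv.Perm (List p.Lt)) (hg : g ∈ (ramAut p).group)
    (w : List p.Lt) : (g w).length = w.length := by
  revert w
  refine Subgroup.closure_induction (p := fun g _ => ∀ w, (g w).length = w.length) ?_ ?_ ?_ ?_ hg
  · rintro g ⟨s, rfl⟩ w
    rw [perm_apply, p.length_act]
  · intro w; rfl
  · intro g h _ _ hg hh w
    show (g (h w)).length = _
    rw [hg, hh]
  · intro g _ hg w
    have h1 := hg (g⁻¹ w)
    have h2 : g (g⁻¹ w) = w := g.apply_symm_apply w
    rw [h2] at h1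
    exact h1.symm

theorem exists_group_of_actW (p : Par F K) (v : List p.St) :
    ∃ g ∈ (ramAut p).group, ∀ x, g x = p.actW v x := by
  induction v with
  | nil => exact ⟨1, Subgroup.one_mem _, fun x => rfl⟩
  | cons u v ih =>
    obtain ⟨g, hg, h⟩ := ih
    refine ⟨(ramAut p).perm u * g, Subgroup.mul_mem _ (Subgroup.subset_closure ⟨u, rfl⟩) hg, ?_⟩
    intro x
    show (ramAut p).perm u (g x) = _
    rw [h, perm_apply]
    rfl

theorem vertices_eq [Algebra.IsAlgebraic F K] (p : Par F K) (n : ℕ) (u : List p.Lt)
    (hu : u.length = n) : (ramAut p).vertices u = {v | v.length = n} := by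
  ext v
  constructor
  · rintro ⟨g, hg, rfl⟩
    show (g u).length = n
    rw [group_length p g hg, hu]
  · intro hv
    obtain ⟨w, hw⟩ := exists_word p n u v hu hv
    obtain ⟨g, hg, h⟩ := exists_group_of_actW p w
    exact ⟨g, hg, by rw [h, hw]⟩

theorem ncard_words (p : Par F K) (n : ℕ) :
    {v : List p.Lt | v.length = n}.ncard = Fintype.card F ^ n := by
  haveI := p.finite_Lt
  haveI := Fintype.ofFinite p.Lt
  have h : Fintype.card (List.Vector p.Lt n) = Fintype.card F ^ n := by
    rw [card_vector, ← Nat.card_eq_fintype_card, p.card_Lt]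
  rw [← h, ← Nat.card_eq_fintype_card]
  rfl

theorem markov_eq (p : Par F K) [Fintype p.St] (f : List p.Lt → ℝ) (v : List p.Lt) :
    (ramAut p).markov f v = (1 / ((Fintype.card F : ℝ) + 1)) * ∑ u : p.St, f (p.act u v) := by
  classical
  unfold Automaton.markov
  rw [valency_eq, gens_eq, finsum_mem_range (perm_injective p), finsum_eq_sum_of_fintype]
  push_cast
  simp only [perm_apply]

theorem isRamanujan [Algebra.IsAlgebraic F K] (p : Par F K) (n : ℕ) (u : List p.Lt)
    (hu : u.length = n) : (ramAut p).IsRamanujan u := by
  classical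
  intro f lam hne hsum heig
  haveI := p.finite_St
  haveI := Fintype.ofFinite p.St
  haveI := p.finite_Lt
  haveI := Fintype.ofFinite p.Lt
  haveI : Fintype {x : List p.Lt // x.length = n} :=
    inferInstanceAs (Fintype (List.Vector p.Lt n))
  rw [vertices_eq p n u hu] at hne hsum heig
  have hq : (0 : ℝ) < (Fintype.card F : ℝ) + 1 := by positivity
  have key := level_bound p n (fun x => f x.1) (((Fintype.card F : ℝ) + 1) * lam) ?_ ?_ ?_
  · rw [valency_eq]
    push_cast
    rw [add_sub_cancel_right, le_div_iff₀ hq]
    rw [abs_mul, abs_of_pos hq] at key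
    linarith
  · intro h
    obtain ⟨v, hv, hv2⟩ := hne
    exact hv2 (congrFun h ⟨v, hv⟩)
  · have hfin : Set.Finite {v : List p.Lt | v.length = n} := List.finite_length_eq p.Lt n
    rw [← hsum, finsum_mem_eq_finite_toFinset_sum _ hfin]
    symm
    apply Finset.sum_subtype
    intro x
    rw [Set.Finite.mem_toFinset]
    rfl
  · intro x
    have h := heig x.1 x.2
    rw [markov_eq] at h
    show ∑ s : p.St, f (p.act s x.1) = _
    field_simp at h
    linarith

end ram

theorem result :
    (∀ (F : Type) [Field F] [Fintype F] (p : Par F (AlgebraicClosure F)),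
      Finite p.St ∧ Nat.card p.St = Fintype.card F + 1 ∧
      Finite p.Lt ∧ Nat.card p.Lt = Fintype.card F ∧
      (ramAut p).valency = Fintype.card F + 1 ∧
      ∀ (ξ : ℕ → p.Lt) (n : ℕ),
        (ramAut p).vertices (List.ofFn fun i : Fin n => ξ i) = {v | v.length = n} ∧
        ((ramAut p).vertices (List.ofFn fun i : Fin n => ξ i)).ncard = Fintype.card F ^ n ∧
        (ramAut p).IsRamanujan (List.ofFn fun i : Fin n => ξ i)) ∧
    ∀ q : ℕ, IsPrimePow q → 3 ≤ q → ∃ (F : Type) (_ : Field F) (_ : Fintype F),
      Fintype.card F = q ∧ Nonempty (Par F (AlgebraicClosure F)) := by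
  refine ⟨?_, ?_⟩
  · intro F _ _ p
    refine ⟨p.finite_St, p.card_St, p.finite_Lt, p.card_Lt, valency_eq p, ?_⟩
    intro ξ n
    have hl : (List.ofFn fun i : Fin n => ξ i).length = n := List.length_ofFn
    refine ⟨vertices_eq p n _ hl, ?_, isRamanujan p n _ hl⟩
    rw [vertices_eq p n _ hl, ncard_words]
  · intro q hq h3
    obtain ⟨p, k, hp, hk, rfl⟩ := (isPrimePow_nat_iff q).1 hq
    haveI : Fact p.Prime := ⟨hp⟩
    haveI : Fintype (GaloisField p k) := Fintype.ofFinite _
    have hc : Fintype.card (GaloisField p k) = p ^ k := by
      rw [← Nat.card_eq_fintype_card]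
      exact GaloisField.card p k hk.ne'
    refine ⟨GaloisField p k, inferInstance, inferInstance, hc, ?_⟩
    exact Par.exists_of_two_lt (by rw [hc]; omega)

end Pool.Agent.Results.MP_25cfe7_al.RamanujanAutomata
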